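import Pool.Agent.U196.SO.Stm

set_option autoImplicit false

/-! Project SO (helper196), package AVER: integration of the formula of LINE over the line. -/

namespace Pool.Agent.U492.SO

open Filter Topology MeasureTheory Complex
open Pool.Agent.Q97.UM Pool.Agent.Q257.UM.VA Pool.Agent.U196.SO

noncomputable section

/-- Fubini for a kernel times a function bounded above -/
theorem fub {κ : ℝ → ℝ} (hκ : Continuous κ) (hκ0 : ∀ u, 0 ≤ κ u) {F : ℝ → ℝ → ℝ}
    (hF : Measurable (Function.uncurry F)) {M U1 U2 : ℝ} (hU : U1 ≤ U2)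
    (hM : ∀ a ∈ Set.Icc (1 / 2 : ℝ) (3 / 2), ∀ u ∈ Set.Icc U1 U2, F a u ≤ M) {J : ℝ → ℝ} (hJ : Continuous J)
    {K : ℝ} (hI : ∀ a : ℝ, 1 / 2 ≤ a → a < 3 / 2 →
      IntervalIntegrable (fun u => κ u * F a u) volume U1 U2 ∧ |(∫ u in U1..U2, κ u * F a u) - J a| ≤ K) :
    IntervalIntegrable (fun u => κ u * ∫ a in (1 / 2 : ℝ)..(3 / 2), F a u) volume U1 U2 ∧
      |(∫ u in U1..U2, κ u * ∫ a in (1 / 2 : ℝ)..(3 / 2), F a u) - ∫ a in (1 / 2 : ℝ)..(3 / 2), J a| ≤ K := by
  have h13 : (1 / 2 : ℝ) ≤ 3 / 2 := by norm_num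
  set μ : Measure ℝ := volume.restrict (Set.Ioc (1 / 2 : ℝ) (3 / 2)) with hμ
  set ν : Measure ℝ := volume.restrict (Set.Ioc U1 U2) with hν
  obtain ⟨CJ, hCJ⟩ := isCompact_Icc.exists_bound_of_continuousOn (s := Set.Icc (1 / 2 : ℝ) (3 / 2)) (f := J) hJ.continuousOn
  have hκν : Integrable κ ν := by
    rw [hν, ← IntegrableOn, ← intervalIntegrable_iff_integrableOn_Ioc_of_le hU]
    exact hκ.intervalIntegrable _ _
  have hgm : Measurable fun p : ℝ × ℝ => κ p.2 * (M - F p.1 p.2) :=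
    (hκ.measurable.comp measurable_snd).mul (measurable_const.sub hF)
  have hgood : ∀ᵐ a ∂μ, 1 / 2 ≤ a ∧ a < 3 / 2 := by
    have h1 : ∀ᵐ a ∂μ, a ∈ Set.Ioc (1 / 2 : ℝ) (3 / 2) := ae_restrict_mem measurableSet_Ioc
    have h2 : ∀ᵐ a ∂μ, a ≠ 3 / 2 := by
      apply ae_restrict_of_ae
      exact compl_mem_ae_iff.2 (measure_singleton _)
    filter_upwards [h1, h2] with a ha hb
    exact ⟨ha.1.le, lt_of_le_of_ne ha.2 hb⟩
  have hint : ∀ a : ℝ, 1 / 2 ≤ a → a < 3 / 2 → Integrable (fun u => κ u * F a u) ν := by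
    intro a h1 h2
    rw [hν, ← IntegrableOn, ← intervalIntegrable_iff_integrableOn_Ioc_of_le hU]
    exact (hI a h1 h2).1
  have hgi : Integrable (fun p : ℝ × ℝ => κ p.2 * (M - F p.1 p.2)) (μ.prod ν) := by
    rw [integrable_prod_iff hgm.aestronglyMeasurable]
    constructor
    · filter_upwards [hgood] with a ha
      have h1 := (hκν.mul_const M).sub (hint a ha.1 ha.2)
      refine h1.congr (Eventually.of_forall fun u => ?_)
      simp only [Pi.sub_apply]
      ring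
    · have hm : AEStronglyMeasurable (fun a => ∫ u, ‖κ u * (M - F a u)‖ ∂ν) μ := by
        have h1 : StronglyMeasurable (Function.uncurry fun a u => ‖κ u * (M - F a u)‖) :=
          hgm.norm.stronglyMeasurable
        exact (h1.integral_prod_right).aestronglyMeasurable
      refine Integrable.of_bound hm (|M * ∫ u, κ u ∂ν| + (K + CJ)) ?_
      filter_upwards [hgood] with a ha
      have h0 : ∀ᵐ u ∂ν, ‖κ u * (M - F a u)‖ = M * κ u - κ u * F a u := by
        filter_upwards [ae_restrict_mem (μ := (volume : Measure ℝ)) (measurableSet_Ioc (a := U1) (b := U2))] with u hu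
        have h2 := hM a ⟨ha.1, ha.2.le⟩ u ⟨hu.1.le, hu.2⟩
        rw [Real.norm_of_nonneg (mul_nonneg (hκ0 u) (by linarith))]
        ring
      rw [integral_congr_ae h0, integral_sub (hκν.const_mul M) (hint a ha.1 ha.2), integral_const_mul]
      have h3 := (hI a ha.1 ha.2).2
      rw [intervalIntegral.integral_of_le hU] at h3
      have h4 := hCJ a ⟨ha.1, ha.2.le⟩
      rw [Real.norm_eq_abs] at h4
      have h5 : |∫ u, κ u * F a u ∂ν| ≤ K + CJ := by
        have h6 : ∫ u, κ u * F a u ∂ν = ((∫ u, κ u * F a u ∂ν) - J a) + J a := by ring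
        rw [h6]
        exact (abs_add_le _ _).trans (add_le_add h3 h4)
      rw [Real.norm_eq_abs]
      exact (abs_sub _ _).trans (add_le_add le_rfl h5)
  have hfi : Integrable (Function.uncurry fun a u => κ u * F a u) (μ.prod ν) := by
    have h1 : Integrable (fun p : ℝ × ℝ => (1 : ℝ) * (κ p.2 * M)) (μ.prod ν) :=
      Integrable.mul_prod (L := ℝ) (integrable_const (1 : ℝ)) (hκν.mul_const M)
    refine (h1.sub hgi).congr (Eventually.of_forall fun p => ?_)
    simp only [Pi.sub_apply, Function.uncurry]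
    ring
  have hinner : ∀ u, ∫ a, κ u * F a u ∂μ = κ u * ∫ a in (1 / 2 : ℝ)..(3 / 2), F a u := by
    intro u
    rw [intervalIntegral.integral_of_le h13]
    exact integral_const_mul _ _
  have hswap := integral_integral_swap hfi
  simp only [hinner] at hswap
  have hIint : Integrable (fun a => ∫ u, κ u * F a u ∂ν) μ := hfi.integral_prod_left
  have hJint : Integrable J μ := by
    rw [hμ, ← IntegrableOn, ← intervalIntegrable_iff_integrableOn_Ioc_of_le h13]
    exact hJ.intervalIntegrable _ _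
  constructor
  · rw [intervalIntegrable_iff_integrableOn_Ioc_of_le hU, IntegrableOn]
    refine hfi.integral_prod_right.congr (Eventually.of_forall fun u => ?_)
    exact hinner u
  · rw [intervalIntegral.integral_of_le hU, intervalIntegral.integral_of_le h13, ← hswap,
      ← integral_sub hIint hJint]
    have h7 : ‖∫ a, ((∫ u, κ u * F a u ∂ν) - J a) ∂μ‖ ≤ K * μ.real Set.univ := by
      apply norm_integral_le_of_norm_le_const
      filter_upwards [hgood] with a ha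
      have h3 := (hI a ha.1 ha.2).2
      rw [intervalIntegral.integral_of_le hU] at h3
      rw [Real.norm_eq_abs]
      exact h3
    have h8 : μ.real Set.univ = 1 := by
      rw [hμ, measureReal_restrict_apply MeasurableSet.univ, Set.univ_inter, Real.volume_real_Ioc_of_le h13]
      norm_num
    rw [h8, mul_one, Real.norm_eq_abs] at h7
    exact h7

/-- integral of the exponential -/
theorem int_exp_b {x : ℝ} (hx : x ≠ 0) (b : ℝ) : ∫ r in (0 : ℝ)..b, Real.exp (r * x) = (Real.exp (b * x) - 1) / x := by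
  have h : ∀ r ∈ Set.uIcc (0 : ℝ) b, HasDerivAt (fun r : ℝ => Real.exp (r * x) / x) (Real.exp (r * x)) r := by
    intro r _
    have h1 : HasDerivAt (fun r : ℝ => r * x) x r := by simpa using (hasDerivAt_id r).mul_const x
    have h2 := h1.exp.div_const x
    have e : Real.exp (r * x) * x / x = Real.exp (r * x) := by field_simp
    rwa [e] at h2
  rw [intervalIntegral.integral_eq_sub_of_hasDerivAt h ((by fun_prop : Continuous fun r : ℝ =>
    Real.exp (r * x)).intervalIntegrable _ _)]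
  simp only [zero_mul, Real.exp_zero]
  ring

theorem int_int_exp {x : ℝ} (hx : x ≠ 0) :
    ∫ a in (1 / 2 : ℝ)..(3 / 2), ∫ r in (0 : ℝ)..(3 / 2 - a), Real.exp (r * x) = (Real.exp x - 1 - x) / x ^ 2 := by
  have h1 : ∀ a : ℝ, ∫ r in (0 : ℝ)..(3 / 2 - a), Real.exp (r * x) = (Real.exp ((3 / 2 - a) * x) - 1) / x := fun a =>
    int_exp_b hx _
  simp only [h1]
  have h2 := intervalIntegral.integral_comp_sub_left (a := 1 / 2) (b := 3 / 2) (fun b => (Real.exp (b * x) - 1) / x) (3 / 2)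
  rw [show (3 / 2 - 3 / 2 : ℝ) = 0 by norm_num, show (3 / 2 - 1 / 2 : ℝ) = 1 by norm_num] at h2
  rw [h2, intervalIntegral.integral_div, intervalIntegral.integral_sub
    ((by fun_prop : Continuous fun r : ℝ => Real.exp (r * x)).intervalIntegrable _ _)
    (continuous_const.intervalIntegrable _ _), int_exp_b hx, intervalIntegral.integral_const]
  simp only [one_mul, sub_zero, smul_eq_mul, mul_one]
  field_simp

/-- the coefficients of `SP` -/
def cc (ψ₁ : ℝ → ℝ) (D t : ℝ) (n : ℕ) : ℂ :=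
  ((ArithmeticFunction.vonMangoldt n * ψ₁ (Real.log n / D) : ℝ) : ℂ) * (n : ℂ) ^ (-(3 / 2 + t * I))

theorem SP_re (ψ₁ : ℝ → ℝ) (D t r : ℝ) : (SP ψ₁ D t r).re =
    ∑ n ∈ Finset.Icc 2 ⌊Real.exp D⌋₊, (cc ψ₁ D t n).re * Real.exp (r * Real.log n) := by
  unfold SP cc
  rw [Complex.re_sum]
  exact Finset.sum_congr rfl fun n _ => Complex.re_mul_ofReal _ _

theorem SP_J (ψ₁ : ℝ → ℝ) (D t : ℝ) :
    ∫ a in (1 / 2 : ℝ)..(3 / 2), ∫ r in (0 : ℝ)..(3 / 2 - a), (SP ψ₁ D t r).re =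
    ∑ n ∈ Finset.Icc 2 ⌊Real.exp D⌋₊, (cc ψ₁ D t n).re * (((n : ℝ) - 1 - Real.log n) / Real.log n ^ 2) := by
  have hc : ∀ n : ℕ, Continuous fun r : ℝ => (cc ψ₁ D t n).re * Real.exp (r * Real.log n) := fun n => by fun_prop
  have h1 : ∀ a : ℝ, ∫ r in (0 : ℝ)..(3 / 2 - a), (SP ψ₁ D t r).re =
      ∑ n ∈ Finset.Icc 2 ⌊Real.exp D⌋₊, (cc ψ₁ D t n).re * ∫ r in (0 : ℝ)..(3 / 2 - a), Real.exp (r * Real.log n) := by
    intro a
    simp only [SP_re]
    rw [intervalIntegral.integral_finsetSum fun n _ => (hc n).intervalIntegrable _ _]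
    exact Finset.sum_congr rfl fun n _ => intervalIntegral.integral_const_mul _ _
  simp only [h1]
  have hc2 : ∀ n : ℕ, Continuous fun a : ℝ => (cc ψ₁ D t n).re *
      ∫ r in (0 : ℝ)..(3 / 2 - a), Real.exp (r * Real.log n) := by
    intro n
    have h2 : Continuous fun b : ℝ => ∫ r in (0 : ℝ)..b, Real.exp (r * Real.log n) :=
      intervalIntegral.continuous_primitive (fun a b => (by fun_prop : Continuous fun r : ℝ =>
        Real.exp (r * Real.log n)).intervalIntegrable _ _) 0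
    exact continuous_const.mul (h2.comp (continuous_const.sub continuous_id))
  rw [intervalIntegral.integral_finsetSum fun n _ => (hc2 n).intervalIntegrable _ _]
  refine Finset.sum_congr rfl fun n hn => ?_
  rw [Finset.mem_Icc] at hn
  have h1 : (0 : ℝ) < n := by
    have : 0 < n := by omega
    exact_mod_cast this
  have h2 : (1 : ℝ) < n := by
    have : 1 < n := by omega
    exact_mod_cast this
  have h3 : Real.log n ≠ 0 := (Real.log_pos h2).ne'
  rw [intervalIntegral.integral_const_mul, int_int_exp h3, Real.exp_log h1]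

theorem JQ {ψ₁ k₀ : ℝ → ℝ} (hK : Ker ψ₁ k₀) (D t : ℝ) :
    |(∫ a in (1 / 2 : ℝ)..(3 / 2), ∫ r in (0 : ℝ)..(3 / 2 - a), (SP ψ₁ D t r).re) - QS ψ₁ D t| ≤
      B1 * (1 / Real.log 2 ^ 2 + 1 / Real.log 2) := by
  rw [SP_J]
  unfold QS
  rw [Complex.re_sum, ← Finset.sum_sub_distrib]
  have hl2 : 0 < Real.log 2 := Real.log_pos one_lt_two
  refine (Finset.abs_sum_le_sum_abs _ _).trans ?_
  have h1 : ∀ n ∈ Finset.Icc 2 ⌊Real.exp D⌋₊,
      |(cc ψ₁ D t n).re * (((n : ℝ) - 1 - Real.log n) / Real.log n ^ 2) -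
        (((ArithmeticFunction.vonMangoldt n / Real.log n ^ 2 * ψ₁ (Real.log n / D) : ℝ) : ℂ) *
          (n : ℂ) ^ (-(1 / 2 + t * I))).re| ≤ ‖gt 0 n‖ * (1 / Real.log 2 ^ 2 + 1 / Real.log 2) := by
    intro n hn
    rw [Finset.mem_Icc] at hn
    have hn0 : n ≠ 0 := by omega
    have h1 : (0 : ℝ) < n := by positivity
    have h2 : (2 : ℝ) ≤ n := by exact_mod_cast hn.1
    have h3 : Real.log 2 ≤ Real.log n := Real.log_le_log two_pos h2
    have h4 : 0 < Real.log n := by linarith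
    have h4c : (Real.log n : ℂ) ≠ 0 := by exact_mod_cast h4.ne'
    have e1 : (n : ℂ) ^ (-(1 / 2 + t * I)) = (n : ℂ) * (n : ℂ) ^ (-(3 / 2 + t * I)) := by
      have : (n : ℂ) * (n : ℂ) ^ (-(3 / 2 + t * I)) = (n : ℂ) ^ (1 : ℂ) * (n : ℂ) ^ (-(3 / 2 + t * I)) := by rw [cpow_one]
      rw [this, ← cpow_add _ _ (by exact_mod_cast hn0)]
      congr 1
      ring
    have e2 : ((ArithmeticFunction.vonMangoldt n / Real.log n ^ 2 * ψ₁ (Real.log n / D) : ℝ) : ℂ) *
        (n : ℂ) ^ (-(1 / 2 + t * I)) = cc ψ₁ D t n * (((n : ℝ) / Real.log n ^ 2 : ℝ) : ℂ) := by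
      rw [e1]
      unfold cc
      push_cast
      field_simp
    rw [e2, Complex.re_mul_ofReal]
    have e3 : (cc ψ₁ D t n).re * (((n : ℝ) - 1 - Real.log n) / Real.log n ^ 2) -
        (cc ψ₁ D t n).re * ((n : ℝ) / Real.log n ^ 2) =
        -((cc ψ₁ D t n).re * (1 / Real.log n ^ 2 + 1 / Real.log n)) := by
      field_simp
      ring
    rw [e3, abs_neg, abs_mul]
    have h5 : |(cc ψ₁ D t n).re| ≤ ‖gt 0 n‖ := by
      refine (Complex.abs_re_le_norm _).trans ?_
      have e4 : cc ψ₁ D t n = ((ψ₁ (Real.log n / D) : ℝ) : ℂ) *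
          ((ArithmeticFunction.vonMangoldt n : ℂ) * (n : ℂ) ^ (-(3 / 2 + t * I))) := by
        unfold cc
        push_cast
        ring
      have e5 : ‖(ArithmeticFunction.vonMangoldt n : ℂ) * (n : ℂ) ^ (-(3 / 2 + t * I))‖ = ‖gt 0 n‖ := by
        rw [← gt_norm t n, gt_eq t t hn0]
        simp
      rw [e4, norm_mul, e5, norm_real, Real.norm_eq_abs]
      have h6 := hK.bd (Real.log n / D)
      exact mul_le_of_le_one_left (norm_nonneg _) h6
    have h7 : 0 ≤ 1 / Real.log n ^ 2 + 1 / Real.log n := by positivity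
    rw [abs_of_nonneg h7]
    have h8 : 1 / Real.log n ^ 2 + 1 / Real.log n ≤ 1 / Real.log 2 ^ 2 + 1 / Real.log 2 := by gcongr
    exact mul_le_mul h5 h8 h7 (norm_nonneg _)
  refine (Finset.sum_le_sum h1).trans ?_
  rw [← Finset.sum_mul]
  refine mul_le_mul_of_nonneg_right ?_ (by positivity)
  exact gt_sumn.sum_le_tsum _ fun _ _ => norm_nonneg _

theorem Fmeas : Measurable (Function.uncurry fun a u : ℝ => Real.log ‖riemannZeta ⟨a, u⟩‖) := by
  have h1 : Measurable fun p : ℝ × ℝ => (⟨p.1, p.2⟩ : ℂ) := by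
    have : (fun p : ℝ × ℝ => (⟨p.1, p.2⟩ : ℂ)) = fun p : ℝ × ℝ => (p.1 : ℂ) + p.2 * I := by
      funext p
      apply Complex.ext <;> simp
    rw [this]
    fun_prop
  exact Real.measurable_log.comp ((Pool.Agent.U761.SZ.zeta_meas.comp h1).norm)

theorem Fbd {U1 U2 : ℝ} (hU : 0 < U1) : ∃ M : ℝ, ∀ a ∈ Set.Icc (1 / 2 : ℝ) (3 / 2), ∀ u ∈ Set.Icc U1 U2,
    Real.log ‖riemannZeta ⟨a, u⟩‖ ≤ M := by
  have hc : ContinuousOn (fun p : ℝ × ℝ => riemannZeta ((p.1 : ℂ) + p.2 * I))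
      (Set.Icc (1 / 2 : ℝ) (3 / 2) ×ˢ Set.Icc U1 U2) := by
    intro p hp
    have h1 : (p.1 : ℂ) + p.2 * I ≠ 1 := by
      intro h
      have := congrArg Complex.im h
      simp at this
      have h2 := hp.2.1
      linarith
    have h3 : ContinuousAt (fun p : ℝ × ℝ => (p.1 : ℂ) + p.2 * I) p := by fun_prop
    exact (ContinuousAt.comp (f := fun p : ℝ × ℝ => (p.1 : ℂ) + p.2 * I)
      (differentiableAt_riemannZeta h1).continuousAt h3).continuousWithinAt
  obtain ⟨B, hB⟩ := (isCompact_Icc.prod isCompact_Icc).exists_bound_of_continuousOn hc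
  refine ⟨Real.log (max 1 B), fun a ha u hu => ?_⟩
  have h1 := hB (a, u) ⟨ha, hu⟩
  have e : ((a : ℂ) + u * I) = ⟨a, u⟩ := by apply Complex.ext <;> simp
  simp only [e] at h1
  by_cases h0 : ‖riemannZeta ⟨a, u⟩‖ = 0
  · rw [h0, Real.log_zero]
    exact Real.log_nonneg (le_max_left _ _)
  · exact Real.log_le_log (lt_of_le_of_ne (norm_nonneg _) (Ne.symm h0)) (h1.trans (le_max_right _ _))

theorem t_AVER : J_AVER := by
  intro hL ψ₁ k₀ hK δ hδ hδ8
  obtain ⟨C, hC, hev⟩ := hL ψ₁ k₀ hK δ hδ hδ8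
  have hl2 : 0 < Real.log 2 := Real.log_pos one_lt_two
  have hB := B1_nonneg
  refine ⟨C + B1 * (1 / Real.log 2 ^ 2 + 1 / Real.log 2), by positivity, ?_⟩
  filter_upwards [hev, eventually_ge_atTop (16 : ℝ)] with T hT hT16 t ht1 ht2
  obtain ⟨U1, U2, h1, h2, h3, h4, hline⟩ := hT t ht1 ht2
  refine ⟨U1, U2, h1, h2, h3, h4, ?_⟩
  have hU : U1 ≤ U2 := by linarith
  have hU1 : 0 < U1 := by linarith
  have hlog : 0 < Real.log T := Real.log_pos (by linarith)
  set D : ℝ := δ * Real.log T with hD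
  have hD0 : 0 < D := by positivity
  obtain ⟨M, hM⟩ := Fbd (U2 := U2) hU1
  have hκc : Continuous fun u : ℝ => D * k₀ (D * (u - t)) :=
    continuous_const.mul (hK.cont.comp (by fun_prop))
  have hκ0 : ∀ u : ℝ, 0 ≤ D * k₀ (D * (u - t)) := fun u => mul_nonneg hD0.le (hK.nonneg _)
  have hJc : Continuous fun a : ℝ => ∫ r in (0 : ℝ)..(3 / 2 - a), (SP ψ₁ D t r).re := by
    have h5 : Continuous fun b : ℝ => ∫ r in (0 : ℝ)..b, (SP ψ₁ D t r).re :=
      intervalIntegral.continuous_primitive (fun a b =>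
        (continuous_re.comp (SP_cont ψ₁ D t)).intervalIntegrable _ _) 0
    exact h5.comp (continuous_const.sub continuous_id)
  obtain ⟨h5, h6⟩ := fub hκc hκ0 Fmeas hU hM hJc (K := C * (1 + SS δ T t)) hline
  refine ⟨h5, ?_⟩
  have h7 := JQ hK D t
  have hSS : 0 ≤ SS δ T t := Pool.Agent.Q257.UM.SS_nonneg δ T t
  have h8 : (∫ u in U1..U2, D * k₀ (D * (u - t)) * Phi u) - QS ψ₁ D t =
      ((∫ u in U1..U2, D * k₀ (D * (u - t)) * ∫ a in (1 / 2 : ℝ)..(3 / 2), Real.log ‖riemannZeta ⟨a, u⟩‖) -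
        ∫ a in (1 / 2 : ℝ)..(3 / 2), ∫ r in (0 : ℝ)..(3 / 2 - a), (SP ψ₁ D t r).re) +
      ((∫ a in (1 / 2 : ℝ)..(3 / 2), ∫ r in (0 : ℝ)..(3 / 2 - a), (SP ψ₁ D t r).re) - QS ψ₁ D t) := by
    unfold Phi
    ring
  rw [h8]
  refine (abs_add_le _ _).trans ((add_le_add h6 h7).trans ?_)
  have h9 : B1 * (1 / Real.log 2 ^ 2 + 1 / Real.log 2) * 1 ≤
      B1 * (1 / Real.log 2 ^ 2 + 1 / Real.log 2) * (1 + SS δ T t) :=
    mul_le_mul_of_nonneg_left (by linarith) (by positivity)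
  nlinarith

end

end Pool.Agent.U492.SO
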